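import Pool.Agent.R336.AutCfg

/-!
# MP_0022d4_lc: compressibility rates of automatic presentations of `(ℕ; S)`

For every FA-presentation `ψ₀` of `(ℕ; S)` there is an FA-presentation `ψ` of `(ℕ; S)` whose
compressibility rate relative to `ψ₀` is at least `T(n)` for all `n`, where `T` is the tower
function. Proof (after a paper proof of helper604): a partial injective length-bounded function on
configurations without infinite forward or backward paths, whose path starting from the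
configuration `1ⁿ` first counts up to a tower of height `n` and then walks through all the
`ψ₀`-names of at most this length, going from each of them back to the name of `0` by the
predecessor function. The paths are traversed forwards (with sign `+`) and then backwards
(with sign `-`), one after another, which gives a chain of order type `ω` whose successor
function is automatic.
-/

set_option autoImplicit false

namespace Pool.Agent.Results.MP_0022d4_lc.TowerCompressibility

/-- The convolution `u ⊗ v`: the word of length `max |u| |v|` whose `i`-th letter is the pair of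
the `i`-th letters of `u` and `v`, where `none` is the padding symbol. -/
def conv {α : Type} (u v : List α) : List (Option α × Option α) :=
  (List.range (max u.length v.length)).map (fun i => (u[i]?, v[i]?))

/-- An FA-presentation of `(ℕ; S)`: a surjection `ψ` from a regular language `L` over a finite
alphabet onto `ℕ` such that the relations `ψ u = ψ v` and `ψ v = ψ u + 1` on `L` are
synchronously recognisable. (The values of `ψ` outside `L` are irrelevant.) -/
structure FAPres where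
  /-- the alphabet -/
  α : Type
  [fin : Fintype α]
  /-- the set of normal forms -/
  L : Language α
  reg : L.IsRegular
  /-- the presentation -/
  ψ : List α → ℕ
  surj : ∀ n, ∃ w ∈ L, ψ w = n
  eqReg : Language.IsRegular
    ({w | ∃ u v, u ∈ L ∧ v ∈ L ∧ ψ u = ψ v ∧ w = conv u v} : Set (List (Option α × Option α)))
  sucReg : Language.IsRegular
    ({w | ∃ u v, u ∈ L ∧ v ∈ L ∧ ψ v = ψ u + 1 ∧ w = conv u v} :
      Set (List (Option α × Option α)))

/-- The length of a shortest normal form of the number `x`. -/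
noncomputable def FAPres.len (P : FAPres) (x : ℕ) : ℕ :=
  sInf {l | ∃ v ∈ P.L, P.ψ v = x ∧ v.length = l}

/-- The compressibility rate of `P` relative to `P₀` (the supremum of the empty set of natural
numbers is `0` in Mathlib; the set is finite). -/
noncomputable def rate (P P₀ : FAPres) (n : ℕ) : ℕ :=
  sSup {m | ∃ w ∈ P.L, w.length ≤ n ∧ P₀.len (P.ψ w) = m}

/-- The tower function. -/
def T : ℕ → ℕ
  | 0 => 1
  | n + 1 => 2 ^ T n

open R336.AutReg R336.AutChain R336.AutCfg

theorem conv_eq {α : Type} (u v : List α) : conv u v = R336.AutReg.conv u v := rfl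

theorem T_eq (n : ℕ) : T n = tow n := by
  induction n with
  | zero => rfl
  | succ n ih => rw [T, tow, ih]

theorem opt_lift {A : Type} {S : AutS A} {R : A → Prop} (h : S.Is R) :
    S.opt.Is (fun o => ∃ a, o = some a ∧ R a) := by
  have h2 : Reg (fun f : ℕ → S.C × Bool => (f 0).2 = true ∧ ∀ n, (f (n + 1)).2 = false) :=
    Reg.local (fun c : S.C × Bool => c.2 = true) (fun _ d : S.C × Bool => d.2 = false)
  have h3 : Reg (fun f : ℕ → S.C × Bool => ∃ a, S.enc a = (fun n => (f n).1) ∧ R a) :=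
    Reg.comp (C := S.C × Bool) h Prod.fst rfl
  refine (h3.and h2).congr (fun f _ => ?_)
  constructor
  · rintro ⟨⟨a, ha, hR⟩, h0, h1⟩
    refine ⟨some a, ?_, a, rfl, hR⟩
    funext n
    have h4 : S.enc a n = (f n).1 := congrFun ha n
    cases n with
    | zero => exact Prod.ext h4 (by simp [h0])
    | succ n => exact Prod.ext h4 (by simp [h1 n])
  · rintro ⟨_, rfl, a, rfl, hR⟩
    exact ⟨⟨a, rfl, hR⟩, by simp, fun n => by simp⟩

theorem opt_none {A : Type} (S : AutS A) : S.opt.Is (fun o => o = none) := by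
  refine AutS.Is.letter (S := S.opt) (fun c : S.C × Bool => c.2 = false) (fun o => ?_)
  cases o with
  | none =>
    constructor
    · intro _; rfl
    · intro _ n; rfl
  | some a =>
    constructor
    · intro h
      have := h 0
      simp at this
    · intro h
      exact absurd h (by simp)

theorem opt_lift2 {A : Type} {S : AutS A} {R : A × A → Prop} (h : (S.prod S).Is R) :
    (S.opt.prod S.opt).Is (fun p => ∃ a b, (p.1 = some a ∧ p.2 = some b) ∧ R (a, b)) := by
  have h2 : Reg (fun f : ℕ → (S.C × Bool) × (S.C × Bool) =>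
      ((f 0).1.2 = true ∧ (f 0).2.2 = true) ∧
        ∀ n, ((f (n + 1)).1.2 = false ∧ (f (n + 1)).2.2 = false)) :=
    Reg.local (fun c : (S.C × Bool) × (S.C × Bool) => c.1.2 = true ∧ c.2.2 = true)
      (fun _ d : (S.C × Bool) × (S.C × Bool) => d.1.2 = false ∧ d.2.2 = false)
  have h3 : Reg (fun f : ℕ → (S.C × Bool) × (S.C × Bool) =>
      ∃ p, (S.prod S).enc p = (fun n => ((f n).1.1, (f n).2.1)) ∧ R p) :=
    Reg.comp (C := (S.C × Bool) × (S.C × Bool)) h
      (fun c : (S.C × Bool) × (S.C × Bool) => (c.1.1, c.2.1)) rfl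
  refine (h3.and h2).congr (fun f _ => ?_)
  constructor
  · rintro ⟨⟨⟨a, b⟩, ha, hR⟩, ⟨h0, h0'⟩, h1⟩
    refine ⟨(some a, some b), ?_, a, b, ⟨rfl, rfl⟩, hR⟩
    funext n
    have h4 : S.enc a n = (f n).1.1 := congrArg Prod.fst (congrFun ha n)
    have h5 : S.enc b n = (f n).2.1 := congrArg Prod.snd (congrFun ha n)
    cases n with
    | zero => exact Prod.ext (Prod.ext h4 (by simp [h0])) (Prod.ext h5 (by simp [h0']))
    | succ n =>
      exact Prod.ext (Prod.ext h4 (by simp [(h1 n).1])) (Prod.ext h5 (by simp [(h1 n).2]))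
  · rintro ⟨⟨_, _⟩, rfl, a, b, ⟨rfl, rfl⟩, hR⟩
    exact ⟨⟨(a, b), rfl, hR⟩, ⟨by simp, by simp⟩, fun n => ⟨by simp, by simp⟩⟩

/-- Unique names: an automatic encoding of `ℕ` made from an FA-presentation. -/
theorem exists_names (P : FAPres) : ∃ N : Nm, ∀ v ∈ P.L, ∀ K, 1 ≤ K → v.length ≤ K →
    ∀ n, K ≤ n → N.S.enc (P.ψ v + 1) n = default := by
  classical
  have := P.fin
  let wd := words P.α
  have hE : (wd.prod wd).Is (fun p => p.1 ∈ P.L ∧ p.2 ∈ P.L ∧ P.ψ p.1 = P.ψ p.2) := by
    refine (is_of_regular _ P.eqReg).congr (fun p => ?_)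
    constructor
    · rintro ⟨u, v, hu, hv, h, he⟩
      obtain ⟨h1, h2⟩ := R336.AutReg.conv_inj (he : R336.AutReg.conv p.1 p.2 = conv u v)
      rw [h1, h2]
      exact ⟨hu, hv, h⟩
    · rintro ⟨hu, hv, h⟩
      exact ⟨p.1, p.2, hu, hv, h, rfl⟩
  have hS : (wd.prod wd).Is (fun p => p.1 ∈ P.L ∧ p.2 ∈ P.L ∧ P.ψ p.2 = P.ψ p.1 + 1) := by
    refine (is_of_regular _ P.sucReg).congr (fun p => ?_)
    constructor
    · rintro ⟨u, v, hu, hv, h, he⟩
      obtain ⟨h1, h2⟩ := R336.AutReg.conv_inj (he : R336.AutReg.conv p.1 p.2 = conv u v)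
      rw [h1, h2]
      exact ⟨hu, hv, h⟩
    · rintro ⟨hu, hv, h⟩
      exact ⟨p.1, p.2, hu, hv, h, rfl⟩
  obtain ⟨ρ, B, hB, hinj, hord, hlen⟩ := wd.exists_rank
  -- least names
  have hφ : ∀ s, ∃ u, u ∈ P.L ∧ P.ψ u = s ∧ ∀ v, v ∈ P.L → P.ψ v = s → ρ u ≤ ρ v := by
    intro s
    have hex : ∃ r, ∃ u, u ∈ P.L ∧ P.ψ u = s ∧ ρ u = r := by
      obtain ⟨u, hu, hs⟩ := P.surj s
      exact ⟨_, u, hu, hs, rfl⟩
    obtain ⟨u, hu, hs, hr⟩ := Nat.find_spec hex
    refine ⟨u, hu, hs, fun v hv hvs => ?_⟩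
    rw [hr]
    exact Nat.find_min' hex ⟨v, hv, hvs, rfl⟩
  choose φ hφL hφψ hφm using hφ
  have hL : wd.Is (fun u => u ∈ P.L) := by
    have h1 := AutS.Is.comap (S := wd) hE (fun u => (u, u)) (fun c => (c, c)) rfl (fun _ _ => rfl)
    exact h1.congr (fun u => ⟨fun h => h.1, fun h => ⟨h, h, rfl⟩⟩)
  have hrev : (wd.prod wd).Is (fun p => ρ p.2 < ρ p.1) :=
    AutS.Is.comap (S := wd.prod wd) hord (fun p => (p.2, p.1)) (fun c => (c.2, c.1)) rfl
      (fun _ _ => rfl)
  have hLeast : wd.Is (fun u => u ∈ P.L ∧ ∀ v, ¬ ((u ∈ P.L ∧ v ∈ P.L ∧ P.ψ u = P.ψ v) ∧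
      ρ v < ρ u)) :=
    hL.and (AutS.Is.all (T := wd) (hE.and hrev).not)
  let e : ℕ → Option (List P.α) := fun s => Nat.casesOn s none (fun s => some (φ s))
  have he : Function.Injective e := by
    intro s t h
    cases s with
    | zero =>
      cases t with
      | zero => rfl
      | succ t => exact absurd h (by simp [e])
    | succ s =>
      cases t with
      | zero => exact absurd h (by simp [e])
      | succ t =>
        have h1 : φ s = φ t := Option.some.inj h
        rw [← hφψ s, ← hφψ t, h1]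
  have hPr : wd.opt.Is (fun o => o = none ∨ ∃ u, o = some u ∧ (u ∈ P.L ∧
      ∀ v, ¬ ((u ∈ P.L ∧ v ∈ P.L ∧ P.ψ u = P.ψ v) ∧ ρ v < ρ u))) :=
    (opt_none wd).or (opt_lift hLeast)
  have hr : ∀ o : Option (List P.α), (o = none ∨ ∃ u, o = some u ∧ (u ∈ P.L ∧
      ∀ v, ¬ ((u ∈ P.L ∧ v ∈ P.L ∧ P.ψ u = P.ψ v) ∧ ρ v < ρ u))) ↔ ∃ s, e s = o := by
    intro o
    constructor
    · rintro (rfl | ⟨u, rfl, hu, hm⟩)
      · exact ⟨0, rfl⟩
      · refine ⟨P.ψ u + 1, ?_⟩
        show some (φ (P.ψ u)) = some u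
        congr 1
        apply hinj
        have h1 := hφm (P.ψ u) u hu rfl
        have h2 := hm (φ (P.ψ u))
        by_contra hne
        exact h2 ⟨⟨hu, hφL _, (hφψ _).symm⟩, lt_of_le_of_ne h1 hne⟩
    · rintro ⟨s, rfl⟩
      cases s with
      | zero => exact Or.inl rfl
      | succ s =>
        refine Or.inr ⟨φ s, rfl, hφL s, ?_⟩
        rintro v ⟨⟨_, hv, h1⟩, h2⟩
        have := hφm s v hv (by rw [← h1, hφψ])
        omega
  let S : AutS ℕ := wd.opt.restrict _ hPr e he hr
  have hsuc : (S.prod S).Is (fun p => 1 ≤ p.1 ∧ p.2 = p.1 + 1) := by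
    have h1 := AutS.Is.comap (S := S.prod S) (opt_lift2 hS) (fun p => (e p.1, e p.2))
      (fun c => c) rfl (fun _ _ => rfl)
    refine h1.congr (fun p => ?_)
    obtain ⟨s, t⟩ := p
    show (∃ a b, (e s = some a ∧ e t = some b) ∧ (a ∈ P.L ∧ b ∈ P.L ∧ P.ψ b = P.ψ a + 1)) ↔
      1 ≤ s ∧ t = s + 1
    constructor
    · rintro ⟨a, b, ⟨ha, hb⟩, _, _, h⟩
      cases s with
      | zero => exact absurd ha (by simp [e])
      | succ s =>
        cases t with
        | zero => exact absurd hb (by simp [e])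
        | succ t =>
          have h1 : φ s = a := Option.some.inj ha
          have h2 : φ t = b := Option.some.inj hb
          rw [← h1, ← h2, hφψ, hφψ] at h
          omega
    · rintro ⟨h1, rfl⟩
      obtain ⟨s, rfl⟩ := Nat.exists_eq_add_of_le' h1
      exact ⟨φ s, φ (s + 1), ⟨rfl, rfl⟩, hφL _, hφL _, by rw [hφψ, hφψ]⟩
  refine ⟨⟨S, fun n => rfl, hsuc⟩, ?_⟩
  intro v hv K hK hvK n hn
  show ((wd.enc (φ (P.ψ v)) n, decide (n = 0)) : wd.C × Bool) = default
  have h1 : ρ v < B ^ K := (hlen v K).mpr (fun m hm => List.getElem?_eq_none (by omega))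
  have h2 : ρ (φ (P.ψ v)) < B ^ K := lt_of_le_of_lt (hφm _ v hv rfl) h1
  have h3 := (hlen _ K).mp h2 n hn
  have h4 : ¬ n = 0 := by omega
  rw [h3, decide_eq_false h4]
  rfl

theorem exists_word {C : Type} [Inhabited C] (f : ℕ → C) (N : ℕ)
    (hf : ∀ n, N ≤ n → f n = default) : ∃ w : List C, w.length = N ∧ toF w = f := by
  refine ⟨(List.range N).map f, by simp, ?_⟩
  funext n
  rw [toF, List.getElem?_map]
  rcases lt_or_ge n N with h | h
  · rw [List.getElem?_range h]; rfl
  · rw [List.getElem?_eq_none (by simpa using h), hf n h]; rfl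

/-- From a chain of signed configurations to an FA-presentation. -/
theorem exists_pres {Y : Type} (S : AutS Y) (Vy : Y → Prop) (hV : S.Is Vy) (F : Y → Y → Prop)
    (hF : (S.prod S).Is (fun p => F p.1 p.2)) (ψ : Y → ℕ) (h1 : ∀ n, ∃ p, Vy p ∧ ψ p = n)
    (h2 : ∀ p q, Vy p → Vy q → ψ p = ψ q → p = q)
    (h3 : ∀ p q, Vy p → Vy q → (ψ q = ψ p + 1 ↔ F p q)) :
    ∃ P : FAPres, ∀ y N, Vy y → (∀ n, N ≤ n → S.enc y n = default) →
      ∃ w ∈ P.L, w.length = N ∧ P.ψ w = ψ y := by
  classical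
  have : Fintype S.C := Fintype.ofFinite S.C
  let L : Language S.C := ({w | ∃ y, S.enc y = toF w ∧ Vy y} : Set (List S.C))
  let Ψ : List S.C → ℕ := fun w => if h : ∃ y, S.enc y = toF w ∧ Vy y then
    ψ (Classical.choose h) else 0
  have hΨ : ∀ w y, S.enc y = toF w → Vy y → Ψ w = ψ y := by
    intro w y hy hv
    have h : ∃ y, S.enc y = toF w ∧ Vy y := ⟨y, hy, hv⟩
    show (if h : ∃ y, S.enc y = toF w ∧ Vy y then ψ (Classical.choose h) else 0) = _
    rw [dif_pos h]
    have h4 := Classical.choose_spec h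
    rw [S.inj (h4.1.trans hy.symm)]
  have hreg : L.IsRegular := regular1 hV
  have hV1 : (S.prod S).Is (fun p => Vy p.1) :=
    AutS.Is.comap (S := S.prod S) hV (fun p => p.1) (fun c => c.1) rfl (fun _ _ => rfl)
  have hV2 : (S.prod S).Is (fun p => Vy p.2) :=
    AutS.Is.comap (S := S.prod S) hV (fun p => p.2) (fun c => c.2) rfl (fun _ _ => rfl)
  have heq := regular2 (C := S.C) (hV1.and (hV2.and (AutS.Is.eq S)))
  have hsc := regular2 (C := S.C) (hV1.and (hV2.and hF))
  refine ⟨⟨S.C, L, hreg, Ψ, ?_, ?_, ?_⟩, ?_⟩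
  · intro n
    obtain ⟨y, hy, hn⟩ := h1 n
    obtain ⟨N, hN⟩ := S.fs y
    obtain ⟨w, _, hw⟩ := exists_word (S.enc y) N hN
    exact ⟨w, ⟨y, hw.symm, hy⟩, by rw [hΨ w y hw.symm hy, hn]⟩
  · refine Eq.mp (congrArg Language.IsRegular ?_) heq
    apply Set.ext
    intro w
    constructor
    · rintro ⟨u, v, rfl, ⟨a, b⟩, he, ha, hb, hab⟩
      have ea : S.enc a = toF u := funext (fun n => congrArg Prod.fst (congrFun he n))
      have eb : S.enc b = toF v := funext (fun n => congrArg Prod.snd (congrFun he n))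
      refine ⟨u, v, ⟨a, ea, ha⟩, ⟨b, eb, hb⟩, ?_, rfl⟩
      have hab' : a = b := hab
      rw [hΨ u a ea ha, hΨ v b eb hb, hab']
    · rintro ⟨u, v, ⟨a, ea, ha⟩, ⟨b, eb, hb⟩, hab, rfl⟩
      refine ⟨u, v, rfl, (a, b), ?_, ha, hb, ?_⟩
      · funext n
        exact Prod.ext (congrFun ea n) (congrFun eb n)
      · rw [hΨ u a ea ha, hΨ v b eb hb] at hab
        exact h2 a b ha hb hab
  · refine Eq.mp (congrArg Language.IsRegular ?_) hsc
    apply Set.ext
    intro w
    constructor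
    · rintro ⟨u, v, rfl, ⟨a, b⟩, he, ha, hb, hab⟩
      have ea : S.enc a = toF u := funext (fun n => congrArg Prod.fst (congrFun he n))
      have eb : S.enc b = toF v := funext (fun n => congrArg Prod.snd (congrFun he n))
      refine ⟨u, v, ⟨a, ea, ha⟩, ⟨b, eb, hb⟩, ?_, rfl⟩
      rw [hΨ u a ea ha, hΨ v b eb hb]
      exact (h3 a b ha hb).mpr hab
    · rintro ⟨u, v, ⟨a, ea, ha⟩, ⟨b, eb, hb⟩, hab, rfl⟩
      refine ⟨u, v, rfl, (a, b), ?_, ha, hb, ?_⟩
      · funext n
        exact Prod.ext (congrFun ea n) (congrFun eb n)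
      · rw [hΨ u a ea ha, hΨ v b eb hb] at hab
        exact (h3 a b ha hb).mp hab
  · intro y N hy hN
    obtain ⟨w, hwN, hw⟩ := exists_word (S.enc y) N hN
    exact ⟨w, ⟨y, hw.symm, hy⟩, hwN, hΨ w y hw.symm hy⟩

/-- **Q1 is true.** For every FA-presentation `P₀` of `(ℕ; S)` there is an FA-presentation `P` of
`(ℕ; S)` whose compressibility rate relative to `P₀` is at least `T(n)` for all `n ≥ 0`. -/
theorem result : ∀ P₀ : FAPres, ∃ P : FAPres, ∀ n, T n ≤ rate P P₀ n := by
  intro P₀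
  obtain ⟨N, hN⟩ := exists_names P₀
  obtain ⟨ρ, B, hB, hinj, hord, hlen⟩ := N.S.exists_rank
  obtain ⟨ρ', B', hB', hinj', hord', hlen'⟩ := (cfS N).exists_rank
  let P : Par := ⟨ρ, B, hB, hinj⟩
  obtain ⟨ψ, c1, c2, c3, c4⟩ := (mach P ρ' hinj').chain (inf_starts P ρ' hinj')
  have hVd : (sgS N).Is (fun y => Vd y.1) :=
    AutS.Is.comap (S := sgS N) (is_Vd N) (fun y => y.1) (fun c => c.1) rfl (fun _ _ => rfl)
  have hF := is_F N P ρ' hinj' hord' hord hlen
  obtain ⟨Q, hQ⟩ := exists_pres (sgS N) (fun y => Vd y.1) hVd (mach P ρ' hinj').F hF ψ c1 c2 c3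
  refine ⟨Q, fun n => ?_⟩
  have henc : ∀ i, n ≤ i → (sgS N).enc (bare n, false) i = default := by
    intro i hi
    have h1 : decide (i < n) = false := decide_eq_false (by omega)
    have h2 : ∀ j : ℕ, (0 : ℕ).testBit j = false := Nat.zero_testBit
    show (((decide (i < n), (0 : ℕ).testBit i, decide (i < 0), (0 : ℕ).testBit i, decide (i < 0),
      N.S.enc 0 i, N.S.enc 0 i), (false && decide (i = 0))) :
        (Bool × Bool × Bool × Bool × Bool × N.S.C × N.S.C) × Bool) = default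
    rw [h1, h2, N.zero]
    rfl
  obtain ⟨w, hwL, hwn, hwψ⟩ := hQ (bare n, false) n (Or.inl ⟨rfl, rfl, rfl, rfl, rfl, rfl⟩) henc
  have hfin : Set.Finite {m | ∃ w ∈ Q.L, w.length ≤ n ∧ P₀.len (Q.ψ w) = m} := by
    have := Q.fin
    apply ((List.finite_length_le Q.α n).image (fun w => P₀.len (Q.ψ w))).subset
    rintro m ⟨w, _, hw, rfl⟩
    exact ⟨w, hw, rfl⟩
  have h1 : T n ≤ P₀.len (Q.ψ w) := by
    obtain ⟨v0, hv0, hv0'⟩ := P₀.surj (Q.ψ w)
    refine le_csInf ⟨v0.length, v0, hv0, hv0', rfl⟩ ?_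
    rintro l ⟨v, hv, hvx, rfl⟩
    by_contra hlt
    have h2 : tow n < tow (n + 1) := Nat.lt_two_pow_self
    rw [T_eq] at hlt
    have h3 : ∀ i, tow (n + 1) ≤ i → N.S.enc (P₀.ψ v + 1) i = default :=
      hN v hv (tow (n + 1)) (tow_pos _) (by omega)
    have h4 : ρ (P₀.ψ v + 1) < B ^ tow (n + 1) := (hlen _ _).mpr h3
    obtain ⟨m, z, hm, hp⟩ := growth P ρ' hinj' n (P₀.ψ v + 1) (by omega) h4
    have h5 := c4 (bare n) z m (bare_A P ρ' hinj' n) hp
    omega
  exact h1.trans (le_csSup hfin.bddAbove ⟨w, hwL, hwn.le, rfl⟩)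

end Pool.Agent.Results.MP_0022d4_lc.TowerCompressibility
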